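import Pool.Agent.Lib.MP_a55e6f_al.Interfaces
import Pool.Agent.Lib.MP_a55e6f_al.Basic

/-!
# MP_a55e6f_al, module FI: from the Zorn statement to S02584
-/

set_option autoImplicit false

attribute [local instance 100] LieRing.ofAssociativeRing

namespace Pool.Agent.A55.H23

open Pool.Agent.A55

/-- `U(L)` is generated by the image of `L`. -/
theorem adjoin_range_iota (k L : Type) [Field k] [LieRing L] [LieAlgebra k L] :
    Algebra.adjoin k (Set.range (UniversalEnvelopingAlgebra.ι k : L →
      UniversalEnvelopingAlgebra k L)) = ⊤ := by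
  set S := Algebra.adjoin k (Set.range (UniversalEnvelopingAlgebra.ι k : L →
      UniversalEnvelopingAlgebra k L)) with hS
  let f : L →ₗ⁅k⁆ S :=
    { toFun := fun x => ⟨UniversalEnvelopingAlgebra.ι k x, Algebra.subset_adjoin ⟨x, rfl⟩⟩
      map_add' := fun x y => Subtype.ext (by simp)
      map_smul' := fun r x => Subtype.ext (by simp)
      map_lie' := fun {x y} => Subtype.ext (by
        rw [LieRing.of_associative_ring_bracket]
        show UniversalEnvelopingAlgebra.ι k ⁅x, y⁆ = _
        rw [LieHom.map_lie, LieRing.of_associative_ring_bracket]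
        rfl) }
  have h : S.val.comp (UniversalEnvelopingAlgebra.lift k f) = AlgHom.id k _ := by
    apply UniversalEnvelopingAlgebra.hom_ext
    ext x
    show ((UniversalEnvelopingAlgebra.lift k f (UniversalEnvelopingAlgebra.ι k x) : S) :
      UniversalEnvelopingAlgebra k L) = UniversalEnvelopingAlgebra.ι k x
    rw [UniversalEnvelopingAlgebra.lift_ι_apply]
    rfl
  rw [eq_top_iff]
  intro u _
  have h1 : ((UniversalEnvelopingAlgebra.lift k f u : S) : UniversalEnvelopingAlgebra k L) = u :=
    DFunLike.congr_fun h u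
  rw [← h1]
  exact (UniversalEnvelopingAlgebra.lift k f u).2

/-- the constant coefficient -/
theorem ev_zero {k Y : Type} [Field k] (p : FA k Y) : ev (fun _ => (0 : k)) p = p.coeff 1 := by
  classical
  induction p using MonoidAlgebra.induction_linear with
  | zero => simp
  | add a b ha hb => simp [ha, hb]
  | single w c =>
    rw [ev, MonoidAlgebra.lift_single, MonoidAlgebra.coeff_single, Finsupp.single_apply]
    induction w using FreeMonoid.inductionOn' with
    | one => simp
    | of_mul a w _ =>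
      rw [map_mul, FreeMonoid.lift_eval_of, zero_mul, smul_zero, if_neg]
      intro h
      have := congrArg FreeMonoid.length h
      simp at this

/-- A Lie algebra whose enveloping algebra is free embeds as an `EnvPair` into `FA k Y`, with zero
constant terms. -/
theorem exists_embedding {k L Y : Type} [Field k] [LieRing L] [LieAlgebra k L]
    (hinj : Function.Injective (UniversalEnvelopingAlgebra.ι k : L →ₗ⁅k⁆
      UniversalEnvelopingAlgebra k L))
    (Φ : UniversalEnvelopingAlgebra k L ≃ₐ[k] FreeAlgebra k Y) :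
    ∃ f : L →ₗ⁅k⁆ FA k Y, Function.Injective f ∧ EnvPair f.range ∧
      ∀ l ∈ f.range, l.coeff 1 = 0 := by
  let Ψ0 : UniversalEnvelopingAlgebra k L ≃ₐ[k] FA k Y :=
    Φ.trans FreeAlgebra.equivMonoidAlgebraFreeMonoid
  let ε : UniversalEnvelopingAlgebra k L →ₐ[k] k := UniversalEnvelopingAlgebra.lift k 0
  let a : Y → k := fun y => ε (Ψ0.symm (letter k y))
  let α1 : FA k Y →ₐ[k] FA k Y := ev (fun y => letter k y + algebraMap k _ (a y))
  let α2 : FA k Y →ₐ[k] FA k Y := ev (fun y => letter k y - algebraMap k _ (a y))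
  have h1 : ∀ y, α1 (letter k y) = letter k y + algebraMap k _ (a y) := fun y => ev_letter _ y
  have h2 : ∀ y, α2 (letter k y) = letter k y - algebraMap k _ (a y) := fun y => ev_letter _ y
  let α : FA k Y ≃ₐ[k] FA k Y := AlgEquiv.ofAlgHom α1 α2
    (algHom_ext_letter fun y => by
      show α1 (α2 (letter k y)) = letter k y
      rw [h2, map_sub, AlgHom.commutes, h1, add_sub_cancel_right])
    (algHom_ext_letter fun y => by
      show α2 (α1 (letter k y)) = letter k y
      rw [h1, map_add, AlgHom.commutes, h2, sub_add_cancel])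
  let Ψ : UniversalEnvelopingAlgebra k L ≃ₐ[k] FA k Y := Ψ0.trans α
  have hε : ∀ u, ev (fun _ => (0 : k)) (Ψ u) = ε u := by
    have h3 : ((ev (fun _ => (0 : k))).comp α1 : FA k Y →ₐ[k] k)
        = ε.comp (Ψ0.symm : FA k Y →ₐ[k] UniversalEnvelopingAlgebra k L) :=
      algHom_ext_letter fun y => by
        show ev (fun _ => (0 : k)) (α1 (letter k y)) = ε (Ψ0.symm (letter k y))
        rw [h1, map_add, AlgHom.commutes, ev_letter, zero_add]
        rfl
    intro u
    have h4 := DFunLike.congr_fun h3 (Ψ0 u)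
    have h5 : ε (Ψ0.symm (Ψ0 u)) = ε u := by rw [AlgEquiv.symm_apply_apply]
    exact h4.trans h5
  let f : L →ₗ⁅k⁆ FA k Y :=
    ((Ψ : UniversalEnvelopingAlgebra k L →ₐ[k] FA k Y) : _ →ₗ⁅k⁆ FA k Y).comp
      (UniversalEnvelopingAlgebra.ι k)
  have hf : ∀ x, f x = Ψ (UniversalEnvelopingAlgebra.ι k x) := fun x => rfl
  have hfinj : Function.Injective f := fun x y hxy => hinj (Ψ.injective hxy)
  refine ⟨f, hfinj, ⟨?_, ?_⟩, ?_⟩
  · have h1 : (f.range : Set (FA k Y)) = (Ψ : UniversalEnvelopingAlgebra k L →ₐ[k] FA k Y) ''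
        (Set.range (UniversalEnvelopingAlgebra.ι k : L → UniversalEnvelopingAlgebra k L)) := by
      ext b
      constructor
      · rintro ⟨x, rfl⟩
        exact ⟨_, ⟨x, rfl⟩, rfl⟩
      · rintro ⟨_, ⟨x, rfl⟩, rfl⟩
        exact ⟨x, rfl⟩
    rw [h1, ← AlgHom.map_adjoin, adjoin_range_iota, Algebra.map_top, AlgHom.range_eq_top]
    exact Ψ.surjective
  · intro Q _ _ g
    let e := LieEquiv.ofInjective f hfinj
    let g' : L →ₗ⁅k⁆ Q := g.comp (e : L →ₗ⁅k⁆ f.range)
    refine ⟨(UniversalEnvelopingAlgebra.lift k g').comp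
      (Ψ.symm : FA k Y →ₐ[k] UniversalEnvelopingAlgebra k L), ?_⟩
    rintro ⟨_, x, rfl⟩
    show UniversalEnvelopingAlgebra.lift k g' (Ψ.symm (f x)) = _
    rw [hf, AlgEquiv.symm_apply_apply, UniversalEnvelopingAlgebra.lift_ι_apply]
    rfl
  · rintro _ ⟨x, rfl⟩
    rw [← ev_zero]
    show ev (fun _ => (0 : k)) (Ψ (UniversalEnvelopingAlgebra.ι k x)) = 0
    rw [hε, UniversalEnvelopingAlgebra.lift_ι_apply]
    rfl

/-- Module FI. -/
theorem final (hZO : ZornStatement) (hFL : FreeLieStatement) (hUI : UEAInjStatement) :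
    FinalStatement := by
  rintro ⟨k, _, _, L, _, _, hnot, Y, ⟨Φ⟩⟩
  apply hnot
  obtain ⟨f, hf, henv, haug⟩ := exists_embedding (hUI k L) Φ
  obtain ⟨T, hTL, hTfree, hTspan⟩ := hZO k Y f.range henv haug
  refine ⟨T, ⟨?_⟩⟩
  let h' : FreeLieAlgebra k T →ₗ⁅k⁆ f.range := FreeLieAlgebra.lift k (fun t => ⟨t.1, hTL t.2⟩)
  have hh : ∀ x, ((h' x : f.range) : FA k Y)
      = ev (Subtype.val : T → FA k Y) (FreeLieAlgebra.lift k (letter k : T → FA k T) x) := by
    have : f.range.incl.comp h' = ((ev (Subtype.val : T → FA k Y)) : FA k T →ₐ[k] FA k Y).toLieHom.comp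
        (FreeLieAlgebra.lift k (letter k : T → FA k T)) := by
      apply FreeLieAlgebra.hom_ext
      intro t
      show ((h' (FreeLieAlgebra.of k t) : f.range) : FA k Y) = ev (Subtype.val : T → FA k Y)
        (FreeLieAlgebra.lift k (letter k : T → FA k T) (FreeLieAlgebra.of k t))
      rw [FreeLieAlgebra.lift_of_apply, FreeLieAlgebra.lift_of_apply, ev_letter]
    intro x
    exact LieHom.congr_fun this x
  have hinj : Function.Injective h' := by
    intro x y hxy
    apply hFL k T
    apply hTfree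
    rw [← hh, ← hh, hxy]
  have hsurj : Function.Surjective h' := by
    intro y
    have h1 : LieSubalgebra.lieSpan k (FA k Y) T ≤ (f.range.incl.comp h').range := by
      rw [LieSubalgebra.lieSpan_le]
      intro t ht
      refine ⟨FreeLieAlgebra.of k ⟨t, ht⟩, ?_⟩
      show ((h' (FreeLieAlgebra.of k ⟨t, ht⟩) : f.range) : FA k Y) = t
      rw [FreeLieAlgebra.lift_of_apply]
    rw [hTspan] at h1
    obtain ⟨x, hx⟩ := h1 y.2
    exact ⟨x, Subtype.ext hx⟩
  exact (LieEquiv.ofInjective f hf).trans (LieEquiv.ofBijective h' ⟨hinj, hsurj⟩).symm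

end Pool.Agent.A55.H23
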