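import Pool.Agent.Lib.MP_a55e6f_al.Interfaces
import Pool.Agent.Lib.MP_a55e6f_al.Basic

/-!
# MP_a55e6f_al, module SASB
-/

set_option autoImplicit false

attribute [local instance 100] LieRing.ofAssociativeRing

namespace Pool.Agent.A55.H23

open Pool.Agent.A55

theorem exists_fin_range {α : Type} {F : Set α} (hF : F.Finite) :
    ∃ (m : ℕ) (c : Fin m → α), Set.range c = F := by
  obtain ⟨m, f, -, hf⟩ := hF.fin_param
  exact ⟨m, f, hf⟩

section
variable {k Y : Type} [Field k] [CharZero k]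

theorem sa_aux (hST : StructStatement) (L : LieSubalgebra k (FA k Y)) (hL : EnvPair L)
    (haug : ∀ l ∈ L, l.coeff 1 = 0) (Y0 : Set Y) (T : Set (FA k Y)) (hTL : T ⊆ L)
    (hTY : T ⊆ subA k Y0) (hfree : FreeFam k (Subtype.val : T → FA k Y))
    (hT : ∀ a ∈ L, a ∈ subA k Y0 → a ∈ LieSubalgebra.lieSpan k (FA k Y) T) :
    ∀ (m : ℕ) (c : Fin m → FA k Y), (∀ i, c i ∈ L) →
    ∃ m'' ≤ m, ∃ d : Fin m'' → FA k Y, (∀ i, d i ∈ L) ∧
      LieSubalgebra.lieSpan k (FA k Y) (T ∪ Set.range d)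
        = LieSubalgebra.lieSpan k (FA k Y) (T ∪ Set.range c) ∧
      FreeFam k (Sum.elim (Subtype.val : T → FA k Y) d) := by
  intro m
  induction m using Nat.strong_induction_on with
  | _ m ih =>
    intro c hc
    by_cases hmin : ∀ m' < m, ∀ c' : Fin m' → FA k Y, (∀ i, c' i ∈ L) →
        LieSubalgebra.lieSpan k (FA k Y) (T ∪ Set.range c')
          ≠ LieSubalgebra.lieSpan k (FA k Y) (T ∪ Set.range c)
    · by_cases hex : ∃ a ∈ LieSubalgebra.lieSpan k (FA k Y) (T ∪ Set.range c), a ∉ subA k Y0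
      · obtain ⟨d, h1, h2, h3, -⟩ := hST k Y L hL haug Y0 T hTL hTY m c hc hmin ih hex
        exact ⟨m, le_rfl, d, h1, h2, h3⟩
      · push Not at hex
        have hCL : LieSubalgebra.lieSpan k (FA k Y) (T ∪ Set.range c) ≤ L := by
          rw [LieSubalgebra.lieSpan_le]
          rintro a (ha | ⟨i, rfl⟩)
          · exact hTL ha
          · exact hc i
        have h1 : LieSubalgebra.lieSpan k (FA k Y) (T ∪ Set.range c)
            = LieSubalgebra.lieSpan k (FA k Y) T :=
          le_antisymm (fun a ha => hT a (hCL ha) (hex a ha))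
            (LieSubalgebra.lieSpan_mono Set.subset_union_left)
        refine ⟨0, Nat.zero_le _, Fin.elim0, fun i => i.elim0, ?_, ?_⟩
        · rw [h1, Set.range_eq_empty, Set.union_empty]
        · have hf : Function.Injective (Sum.elim id (fun i : Fin 0 => i.elim0) : T ⊕ Fin 0 → T) := by
            rintro (a | a) (b | b) hab
            · exact congrArg _ hab
            · exact b.elim0
            · exact a.elim0
            · exact a.elim0
          have h2 := hfree.comp_injective hf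
          have h3 : (fun i => ((Sum.elim id (fun i : Fin 0 => i.elim0) : T ⊕ Fin 0 → T) i : FA k Y))
              = Sum.elim (Subtype.val : T → FA k Y) Fin.elim0 := by
            ext1 i
            rcases i with i | i
            · rfl
            · exact i.elim0
          rw [h3] at h2
          exact h2
    · push Not at hmin
      obtain ⟨m', hm', c', hc', he⟩ := hmin
      obtain ⟨m'', hm'', d, h1, h2, h3⟩ := ih m' hm' c' hc'
      exact ⟨m'', hm''.trans hm'.le, d, h1, h2.trans he, h3⟩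

theorem sb_aux (hST : StructStatement) (L : LieSubalgebra k (FA k Y)) (hL : EnvPair L)
    (haug : ∀ l ∈ L, l.coeff 1 = 0) (Y0 : Set Y) (T : Set (FA k Y)) (hTL : T ⊆ L)
    (hTY : T ⊆ subA k Y0) (hfree : FreeFam k (Subtype.val : T → FA k Y))
    (hT : ∀ a ∈ L, a ∈ subA k Y0 → a ∈ LieSubalgebra.lieSpan k (FA k Y) T)
    (Y' : Set Y) (hY' : Y0 ⊆ Y') :
    ∀ (m : ℕ) (c : Fin m → FA k Y), (∀ i, c i ∈ L) →
    ∃ F' : Set (FA k Y), F'.Finite ∧ F' ⊆ L ∧
      ∀ a, a ∈ LieSubalgebra.lieSpan k (FA k Y) (T ∪ F') ↔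
        (a ∈ LieSubalgebra.lieSpan k (FA k Y) (T ∪ Set.range c) ∧ a ∈ subA k Y') := by
  have hTY' : T ⊆ subA k Y' := fun t ht => by
    have h1 : subA k Y0 ≤ subA k Y' := Algebra.adjoin_mono (Set.image_mono hY')
    exact h1 (hTY ht)
  intro m
  induction m using Nat.strong_induction_on with
  | _ m ih =>
    intro c hc
    by_cases hmin : ∀ m' < m, ∀ c' : Fin m' → FA k Y, (∀ i, c' i ∈ L) →
        LieSubalgebra.lieSpan k (FA k Y) (T ∪ Set.range c')
          ≠ LieSubalgebra.lieSpan k (FA k Y) (T ∪ Set.range c)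
    · by_cases hex : ∃ a ∈ LieSubalgebra.lieSpan k (FA k Y) (T ∪ Set.range c), a ∉ subA k Y'
      · obtain ⟨-, -, -, -, m', hm', e, he1, he2, he3⟩ := hST k Y L hL haug Y' T hTL hTY' m c hc
          hmin (fun m' _ c' hc' => sa_aux hST L hL haug Y0 T hTL hTY hfree hT m' c' hc') hex
        obtain ⟨F', h1, h2, h3⟩ := ih m' hm' e he1
        refine ⟨F', h1, h2, fun a => ?_⟩
        rw [h3]
        exact ⟨fun h => ⟨he2 h.1, h.2⟩, fun h => ⟨he3 a h.1 h.2, h.2⟩⟩
      · push Not at hex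
        refine ⟨Set.range c, Set.finite_range c, ?_, fun a => ⟨fun h => ⟨h, hex a h⟩, fun h => h.1⟩⟩
        rintro _ ⟨i, rfl⟩
        exact hc i
    · push Not at hmin
      obtain ⟨m', hm', c', hc', he⟩ := hmin
      obtain ⟨F', h1, h2, h3⟩ := ih m' hm' c' hc'
      exact ⟨F', h1, h2, fun a => by rw [h3, he]⟩

end

/-- Module SA. -/
theorem sa (hST : StructStatement) : SAStatement := by
  intro k Y _ _ L hL haug Y0 T hTL hTY hfree hT F hF hFL
  obtain ⟨m, c, rfl⟩ := exists_fin_range hF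
  obtain ⟨m'', -, d, h1, h2, h3⟩ := sa_aux hST L hL haug Y0 T hTL hTY hfree hT m c
    (fun i => hFL ⟨i, rfl⟩)
  have h4 := h3.range
  rw [Set.Sum.elim_range, Subtype.range_coe] at h4
  refine ⟨T ∪ Set.range d, Set.subset_union_left, ?_, h4, h2⟩
  rintro a (ha | ⟨i, rfl⟩)
  · exact hTL ha
  · exact h1 i

/-- Module SB. -/
theorem sb (hST : StructStatement) : SBStatement := by
  intro k Y _ _ L hL haug Y0 T hTL hTY hfree hT Y' hY' F hF hFL
  obtain ⟨m, c, rfl⟩ := exists_fin_range hF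
  exact sb_aux hST L hL haug Y0 T hTL hTY hfree hT Y' hY' m c (fun i => hFL ⟨i, rfl⟩)

end Pool.Agent.A55.H23
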